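import Pool.Agent.H16.APP.Rnd
import Pool.Agent.H8.APP.Ext
import Pool.Agent.H8.APP.Whit2

/-!
# Most progressions => polynomial

`ap_det`: if the alternating binomial sums of order `m` of `f` are at most `η` along all but
`ε N ^ 2` of the progressions inside `[0, N)`, then `f` is at distance at most `C η` from a
polynomial of degree less than `m`, off `C ε N` points. `ap_rnd`: the same for random samples.
-/

set_option autoImplicit false

namespace Pool.APP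

open Finset

theorem AP_eq_ap {E : Type*} [NormedAddCommGroup E] [NormedSpace ℝ E] (m : ℕ) (f : ℤ → E)
    (t h : ℤ) : AP m f t h = ap m f t h := rfl

theorem badAP_eq {E : Type*} [NormedAddCommGroup E] [NormedSpace ℝ E] {m : ℕ} (hm : 1 ≤ m)
    (f : ℤ → E) (N : ℕ) (η : ℝ) : badAP m N f η = bad m f N η := by
  ext ⟨t, h⟩
  rw [mem_badAP, mem_bad hm, AP_eq_ap]
  simp only
  constructor
  · rintro ⟨⟨h1, -⟩, ⟨h2, -⟩, h3, h4⟩
    exact ⟨h1, h2, h3, h4⟩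
  · rintro ⟨h1, h2, h3, h4⟩
    have hm' : (1 : ℤ) ≤ m := by exact_mod_cast hm
    have : h ≤ m * h := by nlinarith
    exact ⟨⟨h1, by linarith⟩, ⟨h2, by linarith⟩, h3, h4⟩

/-- **Most progressions => polynomial.** -/
theorem ap_det (m : ℕ) (hm : 1 ≤ m) : ∃ (C : ℝ) (N₀ : ℕ), 1 ≤ C ∧
    ∀ (E : Type) [NormedAddCommGroup E] [NormedSpace ℝ E] (f : ℤ → E) (N : ℕ) (η ε : ℝ),
      N₀ ≤ N → 0 ≤ η → 0 ≤ ε → ((bad m f N η).card : ℝ) ≤ ε * N ^ 2 →
      ∃ p : Fin m → E,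
        ((big (fun t => f t - ∑ i : Fin m, ((t : ℝ) ^ (i : ℕ)) • p i) (C * η) 0 (N - 1)).card : ℝ) ≤
          C * ε * N := by
  obtain ⟨Cw, K, hCw, hK, hwhit⟩ := whit m hm
  obtain ⟨D, hD⟩ : ∃ D : ℕ, D = K + 2 * m * (m + 1) + 1 := ⟨_, rfl⟩
  have hD1 : 1 ≤ D := by omega
  obtain ⟨C₁, hC₁⟩ : ∃ C₁ : ℝ, C₁ = (2 ^ m + 1) ^ (8 * m * (2 * D)) := ⟨_, rfl⟩
  obtain ⟨C₂, hC₂⟩ : ∃ C₂ : ℝ, C₂ = ((m : ℝ) + 1) ^ (8 * m * (2 * D)) *
    (16 * (m : ℝ) ^ 2 * ((2 * D : ℕ) : ℝ) + 1) := ⟨_, rfl⟩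
  have hC₁0 : 0 ≤ C₁ := by rw [hC₁]; positivity
  have hC₂0 : 0 ≤ C₂ := by rw [hC₂]; positivity
  obtain ⟨c₀, hc₀⟩ : ∃ c₀ : ℝ, c₀ = (2 ^ (m + 1) + 1) + Cw * 2 ^ (2 * m + 2) := ⟨_, rfl⟩
  have hc₀0 : 0 ≤ c₀ := by rw [hc₀]; positivity
  obtain ⟨C, hC⟩ : ∃ C : ℝ, C = 1 + 12 * m * (D : ℝ) ^ 2 + C₁ * (c₀ + 1) + C₂ * (6 * D) :=
    ⟨_, rfl⟩
  have p1 : 0 ≤ 12 * m * (D : ℝ) ^ 2 := by positivity
  have p2 : 0 ≤ C₁ * (c₀ + 1) := by positivity
  have p3 : 0 ≤ C₂ * (6 * (D : ℝ)) := by positivity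
  refine ⟨C, 2 * m * D, by rw [hC]; linarith, ?_⟩
  intro E _ _ f N η ε hN hη hε hb
  by_cases hbig : 1 ≤ 12 * m * (D : ℝ) ^ 2 * ε
  · -- trivial case
    refine ⟨fun _ => 0, ?_⟩
    have h1 : ((big (fun t => f t - ∑ i : Fin m, ((t : ℝ) ^ (i : ℕ)) • (0 : E)) (C * η) 0
        (N - 1)).card : ℝ) ≤ N := by
      have h2 : (big (fun t => f t - ∑ i : Fin m, ((t : ℝ) ^ (i : ℕ)) • (0 : E)) (C * η) 0
          (N - 1)).card ≤ (Finset.Icc (0 : ℤ) (N - 1)).card := by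
        classical
        unfold big
        exact card_filter_le _ _
      have h3 : (Finset.Icc (0 : ℤ) (N - 1)).card = N := by simp
      rw [h3] at h2
      exact_mod_cast h2
    refine h1.trans ?_
    have h4 : 1 ≤ C * ε := by
      refine hbig.trans (mul_le_mul_of_nonneg_right ?_ hε)
      rw [hC]; linarith
    have : (0 : ℝ) ≤ N := by positivity
    nlinarith
  have hbig' := not_le.1 hbig
  obtain ⟨M, hM⟩ : ∃ M, M = N / D := ⟨_, rfl⟩
  have hM1 : M * D ≤ N := hM ▸ Nat.div_mul_le_self _ _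
  have hM2 : 2 * m ≤ M := by
    rw [hM]
    exact (Nat.le_div_iff_mul_le hD1).2 hN
  have hM3 : 1 ≤ M := by omega
  have hM4 : N < (M + 1) * D := by
    rw [hM]
    exact Nat.lt_mul_of_div_lt (Nat.lt_succ_self _) hD1
  have hM5 : N ≤ 2 * D * M := by nlinarith
  have hM6 : (K + 2 * m * (m + 1)) * M < N := by
    have : (K + 2 * m * (m + 1)) * M + M = M * D := by rw [hD]; ring
    omega
  have hM5r : (N : ℝ) ≤ 2 * D * M := by exact_mod_cast hM5
  have hM3r : (1 : ℝ) ≤ M := by exact_mod_cast hM3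
  have hN0 : (0 : ℝ) ≤ N := by positivity
  have hb2 : 3 * m * (bad m f N η).card < M ^ 2 := by
    have : (3 : ℝ) * m * (bad m f N η).card < (M : ℝ) ^ 2 := by
      have h1 : (N : ℝ) ^ 2 ≤ (2 * D * M) ^ 2 := pow_le_pow_left₀ hN0 hM5r 2
      have h2 : (3 : ℝ) * m * (bad m f N η).card ≤ 3 * m * (ε * (2 * D * M) ^ 2) := by
        refine mul_le_mul_of_nonneg_left (hb.trans ?_) (by positivity)
        exact mul_le_mul_of_nonneg_left h1 hε
      have h3 : (3 : ℝ) * m * (ε * (2 * D * M) ^ 2) = (12 * m * (D : ℝ) ^ 2 * ε) * (M : ℝ) ^ 2 := by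
        ring
      rw [h3] at h2
      have h4 : (12 * m * (D : ℝ) ^ 2 * ε) * (M : ℝ) ^ 2 < 1 * (M : ℝ) ^ 2 :=
        mul_lt_mul_of_pos_right hbig' (by positivity)
      linarith
    exact_mod_cast this
  obtain ⟨g, hg1, hg2⟩ := self_correct hm hη hM3 hM6 hb2
  obtain ⟨p, a', ha1, ha2, ha3⟩ := hwhit E g 0 M (2 ^ (2 * m + 2) * η) hM3 (by positivity)
    (fun t h h1 h2 h3 => hg1 t h h1 h2 (by linarith))
  rw [zero_add] at ha2
  refine ⟨p, ?_⟩
  have hMr : (0 : ℝ) < M := by linarith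
  have hx : (((big (fun t => f t - ∑ i : Fin m, ((t : ℝ) ^ (i : ℕ)) • p i) (c₀ * η) a'
      (a' + M)).card : ℕ) : ℝ) ≤ 2 * (bad m f N η).card / M := by
    classical
    have h1 : (big (fun t => f t - ∑ i : Fin m, ((t : ℝ) ^ (i : ℕ)) • p i) (c₀ * η) a'
        (a' + M)).card ≤ ((Finset.Icc (0 : ℤ) (K * M)).filter
        (fun t => (2 ^ (m + 1) + 1) * η < ‖f t - g t‖)).card := by
      refine card_le_card fun t ht => ?_
      rw [mem_big] at ht
      obtain ⟨⟨t1, t2⟩, t3⟩ := ht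
      rw [mem_filter, mem_Icc]
      refine ⟨⟨by linarith, by linarith⟩, ?_⟩
      have h4 := ha3 t t1 t2
      have h5 : f t - ∑ i : Fin m, ((t : ℝ) ^ (i : ℕ)) • p i = (f t - g t) +
        (g t - ∑ i : Fin m, ((t : ℝ) ^ (i : ℕ)) • p i) := by abel
      rw [h5, hc₀] at t3
      have h6 := norm_add_le (f t - g t) (g t - ∑ i : Fin m, ((t : ℝ) ^ (i : ℕ)) • p i)
      have h7 : ((2 ^ (m + 1) + 1) + Cw * 2 ^ (2 * m + 2)) * η =
        (2 ^ (m + 1) + 1) * η + Cw * (2 ^ (2 * m + 2) * η) := by ring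
      rw [h7] at t3
      linarith
    rw [le_div_iff₀ hMr]
    have h2 : (big (fun t => f t - ∑ i : Fin m, ((t : ℝ) ^ (i : ℕ)) • p i) (c₀ * η) a'
        (a' + M)).card * M ≤ 2 * (bad m f N η).card := by
      refine le_trans ?_ hg2
      exact Nat.mul_le_mul h1 (Nat.le_mul_of_pos_left _ (Nat.succ_pos m))
    exact_mod_cast h2
  have hext := extend m hm (2 * D) f (fun t => ∑ i : Fin m, ((t : ℝ) ^ (i : ℕ)) • p i) N M a' η
    (c₀ * η) (2 * (bad m f N η).card / M) hη (by positivity) ha1 (by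
      have : (K * M : ℤ) < N := by
        have h1 : K * M ≤ (K + 2 * m * (m + 1)) * M := Nat.mul_le_mul_right _ (by omega)
        have h2 : K * M < N := by omega
        exact_mod_cast h2
      linarith) hM2 hM5 (fun t h => AP_poly_fin m p t h) hx
  rw [← hC₁, ← hC₂, badAP_eq hm] at hext
  have h1 : (big (fun t => f t - ∑ i : Fin m, ((t : ℝ) ^ (i : ℕ)) • p i) (C * η) 0
      (N - 1)).card ≤ (big (fun t => f t - ∑ i : Fin m, ((t : ℝ) ^ (i : ℕ)) • p i)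
      (C₁ * (c₀ * η + η)) 0 (N - 1)).card := by
    refine card_le_card fun t ht => ?_
    rw [mem_big] at ht ⊢
    refine ⟨ht.1, lt_of_le_of_lt ?_ ht.2⟩
    have h3 : C₁ * (c₀ * η + η) = (C₁ * (c₀ + 1)) * η := by ring
    rw [h3]
    refine mul_le_mul_of_nonneg_right ?_ hη
    rw [hC]
    linarith
  have h2 : 2 * ((bad m f N η).card : ℝ) / M + ((bad m f N η).card : ℝ) / M ≤ 6 * D * (ε * N) := by
    rw [← add_div, div_le_iff₀ hMr]
    calc 2 * ((bad m f N η).card : ℝ) + (bad m f N η).card = 3 * (bad m f N η).card := by ring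
      _ ≤ 3 * (ε * N ^ 2) := by linarith
      _ = 3 * (ε * N) * N := by ring
      _ ≤ 3 * (ε * N) * (2 * D * M) := mul_le_mul_of_nonneg_left hM5r (by positivity)
      _ = 6 * D * (ε * N) * M := by ring
  calc ((big (fun t => f t - ∑ i : Fin m, ((t : ℝ) ^ (i : ℕ)) • p i) (C * η) 0
      (N - 1)).card : ℝ) ≤ (big (fun t => f t - ∑ i : Fin m, ((t : ℝ) ^ (i : ℕ)) • p i)
      (C₁ * (c₀ * η + η)) 0 (N - 1)).card := by exact_mod_cast h1
    _ ≤ C₂ * (2 * ((bad m f N η).card : ℝ) / M + ((bad m f N η).card : ℝ) / M) := hext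
    _ ≤ C₂ * (6 * D * (ε * N)) := mul_le_mul_of_nonneg_left h2 hC₂0
    _ = C₂ * (6 * D) * ε * N := by ring
    _ ≤ C * ε * N := by
        refine mul_le_mul_of_nonneg_right (mul_le_mul_of_nonneg_right ?_ hε) hN0
        rw [hC]
        linarith

open Classical in
/-- **Most progressions of random samples => polynomial.** -/
theorem ap_rnd (m : ℕ) (hm : 1 ≤ m) : ∃ (C : ℝ) (N₀ : ℕ), 1 ≤ C ∧
    ∀ (E : Type) [NormedAddCommGroup E] [NormedSpace ℝ E] (Tau : Type) [Fintype Tau]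
      (w : ℤ → Tau → ℝ) (F : ℤ → Tau → E) (N : ℕ) (η ε : ℝ),
      N₀ ≤ N → 0 ≤ η → 0 ≤ ε → (∀ t x, 0 ≤ w t x) →
      (∀ t : ℤ, 0 ≤ t → t < N → ∑ x, w t x = 1) →
      ∑ p ∈ prs m N, GP m w F η p.1 p.2 ≤ ε * N ^ 2 →
      ∃ p : Fin m → E,
        ∑ t ∈ Finset.Ico (0 : ℤ) N, ∑ x, w t x *
          (if C * η < ‖F t x - ∑ i : Fin m, ((t : ℝ) ^ (i : ℕ)) • p i‖ then 1 else 0) ≤
          C * ε * N := by
  obtain ⟨C, N₀, hC, h⟩ := ap_det m hm
  obtain ⟨C', hC'⟩ : ∃ C' : ℝ, C' = C * (1 + 2 ^ (m + 1)) + 2 + 16 * m +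
    C * (1 + 16 * m * (m + 1)) := ⟨_, rfl⟩
  have hC0 : 0 ≤ C := by linarith
  have q1 : 0 ≤ C * (1 + 2 ^ (m + 1)) := by positivity
  have q2 : 0 ≤ C * (1 + 16 * m * ((m : ℝ) + 1)) := by positivity
  have q3 : (0 : ℝ) ≤ 16 * m := by positivity
  refine ⟨C', max N₀ (4 * m), by rw [hC']; linarith, ?_⟩
  intro E _ _ Tau _ w F N η ε hN hη hε h0 h1 he
  have hN1 : N₀ ≤ N := le_trans (le_max_left _ _) hN
  have hN2 : 4 * m ≤ N := le_trans (le_max_right _ _) hN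
  have hN3 : 0 < N := by omega
  have hN4 : (0 : ℝ) < N := by exact_mod_cast hN3
  obtain ⟨f, hf1, hf2⟩ := rnd_fun hm hN2 h0 h1 he
  obtain ⟨p, hp⟩ := h E f N ((1 + 2 ^ (m + 1)) * η) ((1 + 16 * m * (m + 1)) * ε) hN1
    (by positivity) (by positivity) (by
      refine hf2.trans (le_of_eq ?_)
      ring)
  refine ⟨p, ?_⟩
  have hq : ∑ t ∈ Finset.Ico (0 : ℤ) N, ∑ x, w t x *
      (if 2 * η < ‖F t x - f t‖ then 1 else 0) ≤ 16 * m * ε * N := by
    refine le_of_mul_le_mul_right ?_ hN4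
    refine hf1.trans (le_of_eq ?_)
    ring
  have hcard : ∑ t ∈ Finset.Ico (0 : ℤ) N, (if C * ((1 + 2 ^ (m + 1)) * η) <
      ‖f t - ∑ i : Fin m, ((t : ℝ) ^ (i : ℕ)) • p i‖ then (1 : ℝ) else 0) ≤
      C * ((1 + 16 * m * (m + 1)) * ε) * N := by
    refine le_trans (le_of_eq ?_) hp
    rw [← Finset.sum_filter, Finset.sum_const, nsmul_eq_mul, mul_one]
    congr 1
    unfold big
    have : Finset.Ico (0 : ℤ) N = Finset.Icc 0 ((N : ℤ) - 1) := by
      ext t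
      rw [mem_Ico, mem_Icc]
      omega
    rw [this]
  have key : ∀ t ∈ Finset.Ico (0 : ℤ) N, ∑ x, w t x *
      (if C' * η < ‖F t x - ∑ i : Fin m, ((t : ℝ) ^ (i : ℕ)) • p i‖ then 1 else 0) ≤
      ∑ x, w t x * (if 2 * η < ‖F t x - f t‖ then 1 else 0) +
      (if C * ((1 + 2 ^ (m + 1)) * η) <
      ‖f t - ∑ i : Fin m, ((t : ℝ) ^ (i : ℕ)) • p i‖ then (1 : ℝ) else 0) := by
    intro t ht
    rw [mem_Ico] at ht
    obtain ⟨d, hd⟩ : ∃ d : ℝ, d = (if C * ((1 + 2 ^ (m + 1)) * η) <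
      ‖f t - ∑ i : Fin m, ((t : ℝ) ^ (i : ℕ)) • p i‖ then (1 : ℝ) else 0) := ⟨_, rfl⟩
    rw [← hd]
    have e1 : d = ∑ x, w t x * d := by rw [← Finset.sum_mul, h1 t ht.1 ht.2, one_mul]
    rw [e1, ← Finset.sum_add_distrib]
    refine Finset.sum_le_sum fun x _ => ?_
    rw [← mul_add]
    refine mul_le_mul_of_nonneg_left ?_ (h0 t x)
    by_cases c1 : C' * η < ‖F t x - ∑ i : Fin m, ((t : ℝ) ^ (i : ℕ)) • p i‖
    · rw [if_pos c1]
      by_cases c2 : 2 * η < ‖F t x - f t‖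
      · rw [if_pos c2]
        have : 0 ≤ d := by rw [hd]; split_ifs <;> norm_num
        linarith
      · have c3 : C * ((1 + 2 ^ (m + 1)) * η) <
            ‖f t - ∑ i : Fin m, ((t : ℝ) ^ (i : ℕ)) • p i‖ := by
          by_contra c3
          have n1 := not_lt.1 c2
          have n2 := not_lt.1 c3
          have n3 : F t x - ∑ i : Fin m, ((t : ℝ) ^ (i : ℕ)) • p i =
            (F t x - f t) + (f t - ∑ i : Fin m, ((t : ℝ) ^ (i : ℕ)) • p i) := by abel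
          rw [n3] at c1
          have n4 := norm_add_le (F t x - f t) (f t - ∑ i : Fin m, ((t : ℝ) ^ (i : ℕ)) • p i)
          have n5 : (C * (1 + 2 ^ (m + 1)) + 2) * η ≤ C' * η := by
            refine mul_le_mul_of_nonneg_right ?_ hη
            rw [hC']
            linarith
          have n6 : (C * (1 + 2 ^ (m + 1)) + 2) * η = C * ((1 + 2 ^ (m + 1)) * η) + 2 * η := by
            ring
          linarith
        rw [hd, if_pos c3, if_neg c2]
        norm_num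
    · rw [if_neg c1]
      have : 0 ≤ d := by rw [hd]; split_ifs <;> norm_num
      split_ifs <;> linarith
  refine (Finset.sum_le_sum key).trans ?_
  rw [Finset.sum_add_distrib]
  have : C' * ε * N = (C * (1 + 2 ^ (m + 1)) + 2) * (ε * N) + 16 * m * ε * N +
      C * ((1 + 16 * m * (m + 1)) * ε) * N := by rw [hC']; ring
  rw [this]
  have : 0 ≤ (C * (1 + 2 ^ (m + 1)) + 2) * (ε * N) := by positivity
  linarith

end Pool.APP
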