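import Pool.Agent.H16.APP.Sc2

/-!
# Products of laws: marginals and the comparison of two samples
-/

set_option autoImplicit false

namespace Pool.APP

open Finset

variable {E : Type*} [NormedAddCommGroup E] [NormedSpace ℝ E]
variable {Tau : Type*} [Fintype Tau] {m : ℕ}

theorem sum_split (u : Fin (m + 1) → Tau → ℝ) (i : Fin (m + 1))
    (Φ : (Fin (m + 1) → Tau) → ℝ) :
    ∑ T : Fin (m + 1) → Tau, (∏ j, u j (T j)) * Φ T =
      ∑ x : Tau, u i x * ∑ T : Fin m → Tau, (∏ j, u (i.succAbove j) (T j)) *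
        Φ (Fin.insertNth (α := fun _ => Tau) i x T) := by
  rw [← Equiv.sum_comp (Fin.insertNthEquiv (fun _ => Tau) i)
    (fun T : Fin (m + 1) → Tau => (∏ j, u j (T j)) * Φ T), Fintype.sum_prod_type]
  refine Finset.sum_congr rfl fun x _ => ?_
  rw [Finset.mul_sum]
  refine Finset.sum_congr rfl fun T _ => ?_
  rw [Fin.prod_univ_succAbove _ i]
  change u i ((Fin.insertNth (α := fun _ => Tau) i x T : Fin (m + 1) → Tau) i) *
    (∏ j, u (i.succAbove j)
      ((Fin.insertNth (α := fun _ => Tau) i x T : Fin (m + 1) → Tau) (i.succAbove j))) *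
    Φ (Fin.insertNth (α := fun _ => Tau) i x T) = _
  simp only [Fin.insertNth_apply_same, Fin.insertNth_apply_succAbove, mul_assoc]

theorem sum_prod_one {k : ℕ} {u : Fin k → Tau → ℝ} (h : ∀ j, ∑ x, u j x = 1) :
    ∑ T : Fin k → Tau, ∏ j, u j (T j) = 1 := by
  have := Finset.prod_univ_sum (fun _ : Fin k => (Finset.univ : Finset Tau)) (fun j x => u j x)
  rw [Fintype.piFinset_univ] at this
  rw [← this]
  exact Finset.prod_eq_one fun j _ => h j

theorem sum_marg {u : Fin (m + 1) → Tau → ℝ} (h : ∀ j, ∑ x, u j x = 1) (i : Fin (m + 1))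
    (φ : Tau → ℝ) :
    ∑ T : Fin (m + 1) → Tau, (∏ j, u j (T j)) * φ (T i) = ∑ x, u i x * φ x := by
  rw [sum_split u i (fun T => φ (T i))]
  refine Finset.sum_congr rfl fun x _ => ?_
  simp only [Fin.insertNth_apply_same]
  rw [← Finset.sum_mul, sum_prod_one (fun j => h _), one_mul]

open Classical in
/-- The probability that the sum is large. -/
noncomputable def PG (c : Fin (m + 1) → ℝ) (u : Fin (m + 1) → Tau → ℝ)
    (v : Fin (m + 1) → Tau → E) (η : ℝ) : ℝ :=
  ∑ T : Fin (m + 1) → Tau, (∏ j, u j (T j)) *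
    (if η < ‖∑ j, c j • v j (T j)‖ then 1 else 0)

open Classical in
/-- The probability that two samples differ. -/
noncomputable def PD (u : Tau → ℝ) (v : Tau → E) (η : ℝ) : ℝ :=
  ∑ x, u x * ∑ x', u x' * (if η < ‖v x - v x'‖ then 1 else 0)

open Classical in
theorem two_samples {c : Fin (m + 1) → ℝ} {u : Fin (m + 1) → Tau → ℝ}
    {v : Fin (m + 1) → Tau → E} {η : ℝ} (h0 : ∀ j x, 0 ≤ u j x) (h1 : ∀ j, ∑ x, u j x = 1)
    (i : Fin (m + 1)) (hc : 1 ≤ |c i|) : PD (u i) (v i) (2 * η) ≤ 2 * PG c u v η := by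
  set q : Tau → ℝ := fun x => ∑ T : Fin m → Tau, (∏ j, u (i.succAbove j) (T j)) *
    (if η < ‖c i • v i x + ∑ j, c (i.succAbove j) • v (i.succAbove j) (T j)‖ then 1 else 0)
    with hq
  have e1 : PG c u v η = ∑ x, u i x * q x := by
    rw [PG, sum_split u i]
    refine Finset.sum_congr rfl fun x _ => ?_
    rw [hq]
    congr 1
    refine Finset.sum_congr rfl fun T _ => ?_
    rw [Fin.sum_univ_succAbove _ i]
    simp
  have key : ∀ x x', (if 2 * η < ‖v i x - v i x'‖ then (1 : ℝ) else 0) ≤ q x + q x' := by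
    intro x x'
    have hq0 : ∀ y, 0 ≤ q y := fun y => Finset.sum_nonneg fun T _ =>
      mul_nonneg (Finset.prod_nonneg fun j _ => h0 _ _) (by split_ifs <;> norm_num)
    have ho : (0 : ℝ) ≤ q x + q x' := add_nonneg (hq0 _) (hq0 _)
    split_ifs with hx
    · rw [hq]
      simp only
      rw [← Finset.sum_add_distrib]
      refine (sum_prod_one (u := fun j => u (i.succAbove j)) (fun j => h1 _)).symm.le.trans
        (Finset.sum_le_sum fun T _ => ?_)
      rw [← mul_add]
      refine le_mul_of_one_le_right (Finset.prod_nonneg fun j _ => h0 _ _) ?_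
      by_contra hcon
      set s := ∑ j, c (i.succAbove j) • v (i.succAbove j) (T j) with hs
      have c1 : ¬ η < ‖c i • v i x + s‖ := by
        intro h
        rw [if_pos h] at hcon
        apply hcon
        split_ifs <;> norm_num
      have c2 : ¬ η < ‖c i • v i x' + s‖ := by
        intro h
        rw [if_pos h] at hcon
        apply hcon
        split_ifs <;> norm_num
      have e : c i • (v i x - v i x') = (c i • v i x + s) - (c i • v i x' + s) := by
        rw [smul_sub]; abel
      have n1 : ‖c i • (v i x - v i x')‖ ≤ 2 * η := by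
        rw [e]
        refine (norm_sub_le _ _).trans ?_
        linarith [not_lt.1 c1, not_lt.1 c2]
      rw [norm_smul, Real.norm_eq_abs] at n1
      have : ‖v i x - v i x'‖ ≤ |c i| * ‖v i x - v i x'‖ := by
        nlinarith [norm_nonneg (v i x - v i x')]
      linarith
    · exact ho
  calc PD (u i) (v i) (2 * η) ≤ ∑ x, u i x * ∑ x', u i x' * (q x + q x') := by
        refine Finset.sum_le_sum fun x _ => mul_le_mul_of_nonneg_left ?_ (h0 _ _)
        refine Finset.sum_le_sum fun x' _ => mul_le_mul_of_nonneg_left (key x x') (h0 _ _)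
    _ = 2 * PG c u v η := by
        rw [e1]
        simp only [mul_add, Finset.sum_add_distrib]
        have a1 : ∀ x, ∑ x', u i x' * q x = q x := by
          intro x
          rw [← Finset.sum_mul, h1, one_mul]
        have a2 : ∑ x, u i x * ∑ x', u i x' * q x' = ∑ x, u i x * q x := by
          rw [← Finset.sum_mul, h1, one_mul]
        simp only [a1, a2]
        ring

omit [NormedSpace ℝ E] in
open Classical in
/-- A typical value. -/
theorem exists_typical {u : Tau → ℝ} {v : Tau → E} {η : ℝ} (h0 : ∀ x, 0 ≤ u x)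
    (h1 : ∑ x, u x = 1) :
    ∃ a : E, ∑ x, u x * (if η < ‖v x - a‖ then 1 else 0) ≤ PD u v η := by
  by_contra hc
  push Not at hc
  set q : Tau → ℝ := fun a => ∑ x, u x * (if η < ‖v x - v a‖ then 1 else 0) with hq
  have e : PD u v η = ∑ a, u a * q a := by
    rw [PD]
    refine Finset.sum_congr rfl fun x _ => ?_
    congr 1
    rw [hq]
    refine Finset.sum_congr rfl fun y _ => ?_
    rw [norm_sub_rev]
  have h2 : ∑ a, u a * PD u v η ≤ ∑ a, u a * q a :=
    Finset.sum_le_sum fun a _ => mul_le_mul_of_nonneg_left (hc _).le (h0 a)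
  have h3 : ∃ a, 0 < u a := by
    by_contra hn
    push Not at hn
    have : ∑ x, u x ≤ 0 := Finset.sum_nonpos fun x _ => hn x
    linarith
  obtain ⟨a, ha⟩ := h3
  have h4 : ∑ a, u a * PD u v η < ∑ a, u a * q a :=
    Finset.sum_lt_sum (fun a _ => mul_le_mul_of_nonneg_left (hc _).le (h0 a))
      ⟨a, Finset.mem_univ _, mul_lt_mul_of_pos_left (hc _) ha⟩
  rw [← Finset.sum_mul, h1, one_mul, e] at h4
  exact lt_irrefl _ h4

open Classical in
/-- If the typical values have a large sum, something is atypical. -/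
theorem one_le_PG {c : Fin (m + 1) → ℝ} {u : Fin (m + 1) → Tau → ℝ}
    {v : Fin (m + 1) → Tau → E} {η θ : ℝ} (h0 : ∀ j x, 0 ≤ u j x) (h1 : ∀ j, ∑ x, u j x = 1)
    (a : Fin (m + 1) → E)
    (ha : η + (∑ j, |c j|) * θ < ‖∑ j, c j • a j‖) :
    1 ≤ PG c u v η + ∑ j, ∑ x, u j x * (if θ < ‖v j x - a j‖ then 1 else 0) := by
  have e : ∀ j, ∑ x, u j x * (if θ < ‖v j x - a j‖ then (1 : ℝ) else 0) =
      ∑ T : Fin (m + 1) → Tau, (∏ i, u i (T i)) * (if θ < ‖v j (T j) - a j‖ then 1 else 0) :=
    fun j => (sum_marg h1 j (fun x => if θ < ‖v j x - a j‖ then (1 : ℝ) else 0)).symm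
  rw [Finset.sum_congr rfl fun j _ => e j, Finset.sum_comm, PG, ← Finset.sum_add_distrib]
  refine (sum_prod_one h1).symm.le.trans (Finset.sum_le_sum fun T _ => ?_)
  rw [← Finset.mul_sum, ← mul_add]
  refine le_mul_of_one_le_right (Finset.prod_nonneg fun j _ => h0 _ _) ?_
  by_contra hcon
  have pos : ∀ j ∈ (Finset.univ : Finset (Fin (m + 1))),
      (0 : ℝ) ≤ (if θ < ‖v j (T j) - a j‖ then 1 else 0) := by
    intro j _
    split_ifs <;> norm_num
  have c1 : ¬ η < ‖∑ j, c j • v j (T j)‖ := by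
    intro h
    rw [if_pos h] at hcon
    have := Finset.sum_nonneg pos
    linarith
  have c2 : ∀ j, ‖v j (T j) - a j‖ ≤ θ := by
    intro j
    by_contra h
    have h' := not_le.1 h
    have := Finset.single_le_sum pos (Finset.mem_univ j)
    rw [if_pos h'] at this
    apply hcon
    have : (0 : ℝ) ≤ (if η < ‖∑ j, c j • v j (T j)‖ then 1 else 0) := by
      split_ifs <;> norm_num
    linarith
  have e2 : ∑ j, c j • a j = ∑ j, c j • v j (T j) - ∑ j, c j • (v j (T j) - a j) := by
    rw [← Finset.sum_sub_distrib]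
    refine Finset.sum_congr rfl fun j _ => ?_
    rw [smul_sub, sub_sub_cancel]
  rw [e2] at ha
  have n1 : ‖∑ j, c j • (v j (T j) - a j)‖ ≤ (∑ j, |c j|) * θ := by
    rw [Finset.sum_mul]
    refine (norm_sum_le _ _).trans (Finset.sum_le_sum fun j _ => ?_)
    rw [norm_smul, Real.norm_eq_abs]
    exact mul_le_mul_of_nonneg_left (c2 j) (abs_nonneg _)
  have := norm_sub_le (∑ j, c j • v j (T j)) (∑ j, c j • (v j (T j) - a j))
  linarith [not_lt.1 c1]

end Pool.APP
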