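import Pool.Agent.H16.APP.Prd

/-!
# From random samples to a function
-/

set_option autoImplicit false

namespace Pool.APP

open Finset

variable {E : Type*} [NormedAddCommGroup E] [NormedSpace ℝ E]
variable {Tau : Type*} [Fintype Tau]

/-- The progressions inside `[0, N)`. -/
noncomputable def prs (m N : ℕ) : Finset (ℤ × ℤ) :=
  ((Finset.Ico (0 : ℤ) N) ×ˢ (Finset.Ico (1 : ℤ) N)).filter (fun p => p.1 + m * p.2 < N)

theorem mem_prs {m N : ℕ} (hm : 1 ≤ m) {t h : ℤ} :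
    (t, h) ∈ prs m N ↔ 0 ≤ t ∧ 1 ≤ h ∧ t + m * h < N := by
  unfold prs
  simp only [mem_filter, mem_product, mem_Ico]
  constructor
  · rintro ⟨⟨⟨h1, -⟩, h2, -⟩, h3⟩
    exact ⟨h1, h2, h3⟩
  · rintro ⟨h1, h2, h3⟩
    have hm' : (1 : ℤ) ≤ m := by exact_mod_cast hm
    have : h ≤ m * h := by nlinarith
    exact ⟨⟨⟨h1, by linarith⟩, h2, by linarith⟩, h3⟩

/-- The probability of a bad progression. -/
noncomputable def GP (m : ℕ) (w : ℤ → Tau → ℝ) (F : ℤ → Tau → E) (η : ℝ) (t h : ℤ) : ℝ :=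
  PG (fun j : Fin (m + 1) => cf m j) (fun j => w (t + (j : ℕ) * h)) (fun j => F (t + (j : ℕ) * h)) η

theorem sum_inj_le {α β : Type*} [DecidableEq β] (s : Finset α) (t : Finset β) (φ : α → β)
    (g : β → ℝ)
    (hg : ∀ b ∈ t, 0 ≤ g b) (h1 : ∀ a ∈ s, φ a ∈ t)
    (h2 : ∀ a ∈ s, ∀ b ∈ s, φ a = φ b → a = b) : ∑ a ∈ s, g (φ a) ≤ ∑ b ∈ t, g b := by
  rw [← Finset.sum_image (f := g) (g := φ) (fun a ha b hb => h2 a ha b hb)]
  exact Finset.sum_le_sum_of_subset_of_nonneg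
    (Finset.image_subset_iff.2 h1) fun b hb _ => hg b hb

open Classical in
theorem PG_nonneg {m : ℕ} {c : Fin (m + 1) → ℝ} {u : Fin (m + 1) → Tau → ℝ}
    {v : Fin (m + 1) → Tau → E} {η : ℝ} (h0 : ∀ j x, 0 ≤ u j x) : 0 ≤ PG c u v η :=
  Finset.sum_nonneg fun T _ => mul_nonneg (Finset.prod_nonneg fun j _ => h0 _ _)
    (by split_ifs <;> norm_num)

theorem one_le_cf {m : ℕ} (i : Fin (m + 1)) : 1 ≤ |cf m i| := by
  rw [cf_abs]
  exact_mod_cast Nat.choose_pos (Nat.lt_succ_iff.1 i.2)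

theorem rho_le {m : ℕ} (hm : 1 ≤ m) {N : ℕ} {w : ℤ → Tau → ℝ} {F : ℤ → Tau → E} {η : ℝ}
    (h0 : ∀ t x, 0 ≤ w t x) (h1 : ∀ t : ℤ, 0 ≤ t → t < N → ∑ x, w t x = 1) {t h : ℤ}
    (hp : (t, h) ∈ prs m N) (i : Fin (m + 1)) :
    PD (w (t + (i : ℕ) * h)) (F (t + (i : ℕ) * h)) (2 * η) ≤ 2 * GP m w F η t h := by
  obtain ⟨t0, h1', tN⟩ := (mem_prs hm).1 hp
  refine two_samples (c := fun j : Fin (m + 1) => cf m j) (u := fun j => w (t + (j : ℕ) * h))
    (v := fun j => F (t + (j : ℕ) * h)) (fun j x => h0 _ x) (fun j => h1 _ ?_ ?_) i (one_le_cf i)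
  · positivity
  · have : ((j : ℕ) : ℤ) ≤ m := by exact_mod_cast Nat.lt_succ_iff.1 j.2
    have := mul_le_mul_of_nonneg_right this (zero_le_one.trans h1')
    linarith

/-- The total probability that two samples at the same time differ. -/
theorem sum_rho {m : ℕ} (hm : 1 ≤ m) {N : ℕ} (hN : 4 * m ≤ N) {w : ℤ → Tau → ℝ}
    {F : ℤ → Tau → E} {η e : ℝ}
    (h0 : ∀ t x, 0 ≤ w t x) (h1 : ∀ t : ℤ, 0 ≤ t → t < N → ∑ x, w t x = 1)
    (he : ∑ p ∈ prs m N, GP m w F η p.1 p.2 ≤ e) :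
    (∑ t ∈ Finset.Ico (0 : ℤ) N, PD (w t) (F t) (2 * η)) * N ≤ 16 * m * e := by
  obtain ⟨R, hR⟩ : ∃ R, R = (N - 1) / (2 * m) := ⟨_, rfl⟩
  have hm2 : 0 < 2 * m := by omega
  have hR1 : R * (2 * m) ≤ N - 1 := hR ▸ Nat.div_mul_le_self _ _
  have hR2 : N - 1 < (R + 1) * (2 * m) := by
    rw [hR]
    exact Nat.lt_mul_of_div_lt (Nat.lt_succ_self _) hm2
  have hR3 : 1 ≤ R := by
    by_contra h
    have : R = 0 := by omega
    rw [this] at hR2
    omega
  have hR4 : N ≤ 4 * m * R := by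
    have a1 : (R + 1) * (2 * m) = R * (2 * m) + 2 * m := by ring
    have a2 : 2 * m ≤ R * (2 * m) := Nat.le_mul_of_pos_left _ hR3
    have a3 : 4 * m * R = R * (2 * m) + R * (2 * m) := by ring
    omega
  have G0 : ∀ p ∈ prs m N, 0 ≤ GP m w F η p.1 p.2 := fun p _ => PG_nonneg fun j x => h0 _ x
  have rz : ∀ t, ∀ x, 0 ≤ w t x := h0
  classical
  obtain ⟨I, hI⟩ : ∃ I, I = Finset.Icc (1 : ℤ) R := ⟨_, rfl⟩
  have cI : I.card = R := by simp [hI]
  have zR : (2 : ℤ) * (m * R) ≤ N - 1 := by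
    have : ((R * (2 * m) : ℕ) : ℤ) ≤ ((N - 1 : ℕ) : ℤ) := by exact_mod_cast hR1
    rw [Nat.cast_sub (by omega)] at this
    push_cast at this
    linarith
  have hm' : (0 : ℤ) ≤ m := by positivity
  -- pointwise
  have key : ∀ t ∈ Finset.Ico (0 : ℤ) N, R * PD (w t) (F t) (2 * η) ≤
      2 * (∑ h ∈ I, (if (t, h) ∈ prs m N then GP m w F η t h else 0)) +
      2 * (∑ h ∈ I, (if (t - m * h, h) ∈ prs m N then GP m w F η (t - m * h) h else 0)) := by
    intro t ht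
    rw [mem_Ico] at ht
    have n1 : 0 ≤ ∑ h ∈ I, (if (t, h) ∈ prs m N then GP m w F η t h else 0) :=
      Finset.sum_nonneg fun h _ => by
        split_ifs with hp
        · exact G0 _ hp
        · exact le_rfl
    have n2 : 0 ≤ ∑ h ∈ I, (if (t - m * h, h) ∈ prs m N then GP m w F η (t - m * h) h else 0) :=
      Finset.sum_nonneg fun h _ => by
        split_ifs with hp
        · exact G0 _ hp
        · exact le_rfl
    by_cases hc : 2 * t ≤ N - 1
    · have : (R : ℝ) * PD (w t) (F t) (2 * η) ≤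
          2 * (∑ h ∈ I, (if (t, h) ∈ prs m N then GP m w F η t h else 0)) := by
        rw [Finset.mul_sum, ← cI, ← nsmul_eq_mul, ← Finset.sum_const]
        refine Finset.sum_le_sum fun h hh => ?_
        rw [hI, mem_Icc] at hh
        have hp : (t, h) ∈ prs m N := by
          rw [mem_prs hm]
          refine ⟨ht.1, hh.1, ?_⟩
          have := mul_le_mul_of_nonneg_left hh.2 hm'
          linarith
        rw [if_pos hp]
        have := rho_le (F := F) (η := η) hm h0 h1 hp 0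
        simpa using this
      linarith
    · have : (R : ℝ) * PD (w t) (F t) (2 * η) ≤
          2 * (∑ h ∈ I, (if (t - m * h, h) ∈ prs m N then GP m w F η (t - m * h) h else 0)) := by
        rw [Finset.mul_sum, ← cI, ← nsmul_eq_mul, ← Finset.sum_const]
        refine Finset.sum_le_sum fun h hh => ?_
        rw [hI, mem_Icc] at hh
        have hp : (t - m * h, h) ∈ prs m N := by
          rw [mem_prs hm]
          have := mul_le_mul_of_nonneg_left hh.2 hm'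
          refine ⟨by linarith, hh.1, ?_⟩
          linarith [ht.2]
        rw [if_pos hp]
        have := rho_le (F := F) (η := η) hm h0 h1 hp (Fin.last m)
        simpa using this
      linarith
  have s1 : ∑ t ∈ Finset.Ico (0 : ℤ) N,
      ∑ h ∈ I, (if (t, h) ∈ prs m N then GP m w F η t h else 0) ≤ e := by
    rw [← Finset.sum_product', ← Finset.sum_filter]
    refine le_trans ?_ he
    exact sum_inj_le _ (prs m N) (fun p => p) (fun p => GP m w F η p.1 p.2) G0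
      (fun p hp => (mem_filter.1 hp).2) fun p _ q _ e => e
  have s2 : ∑ t ∈ Finset.Ico (0 : ℤ) N, ∑ h ∈ I,
      (if (t - m * h, h) ∈ prs m N then GP m w F η (t - m * h) h else 0) ≤ e := by
    rw [← Finset.sum_product', ← Finset.sum_filter]
    refine le_trans ?_ he
    refine sum_inj_le _ (prs m N) (fun p : ℤ × ℤ => (p.1 - m * p.2, p.2))
      (fun p => GP m w F η p.1 p.2) G0
      (fun p hp => (mem_filter.1 hp).2) fun p _ q _ e => ?_
    simp only [Prod.mk.injEq] at e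
    obtain ⟨e1, e2⟩ := e
    rw [e2] at e1
    exact Prod.ext (by linarith) e2
  have s3 : R * ∑ t ∈ Finset.Ico (0 : ℤ) N, PD (w t) (F t) (2 * η) ≤ 4 * e := by
    rw [Finset.mul_sum]
    refine (Finset.sum_le_sum key).trans ?_
    rw [Finset.sum_add_distrib, ← Finset.mul_sum, ← Finset.mul_sum]
    linarith
  have r0 : 0 ≤ ∑ t ∈ Finset.Ico (0 : ℤ) N, PD (w t) (F t) (2 * η) :=
    Finset.sum_nonneg fun t _ => Finset.sum_nonneg fun x _ => mul_nonneg (h0 _ _)
      (Finset.sum_nonneg fun x' _ => mul_nonneg (h0 _ _) (by split_ifs <;> norm_num))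
  have hR5 : (N : ℝ) ≤ 4 * m * R := by exact_mod_cast hR4
  calc (∑ t ∈ Finset.Ico (0 : ℤ) N, PD (w t) (F t) (2 * η)) * N ≤
      (∑ t ∈ Finset.Ico (0 : ℤ) N, PD (w t) (F t) (2 * η)) * (4 * m * R) :=
        mul_le_mul_of_nonneg_left hR5 r0
    _ = 4 * m * (R * ∑ t ∈ Finset.Ico (0 : ℤ) N, PD (w t) (F t) (2 * η)) := by ring
    _ ≤ 4 * m * (4 * e) := mul_le_mul_of_nonneg_left s3 (by positivity)
    _ = 16 * m * e := by ring

open Classical in
/-- **From random samples to a function.** -/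
theorem rnd_fun {m : ℕ} (hm : 1 ≤ m) {N : ℕ} (hN : 4 * m ≤ N) {w : ℤ → Tau → ℝ}
    {F : ℤ → Tau → E} {η e : ℝ}
    (h0 : ∀ t x, 0 ≤ w t x) (h1 : ∀ t : ℤ, 0 ≤ t → t < N → ∑ x, w t x = 1)
    (he : ∑ p ∈ prs m N, GP m w F η p.1 p.2 ≤ e) :
    ∃ f : ℤ → E,
      (∑ t ∈ Finset.Ico (0 : ℤ) N, ∑ x, w t x * (if 2 * η < ‖F t x - f t‖ then 1 else 0)) * N ≤
        16 * m * e ∧
      ((bad m f N ((1 + 2 ^ (m + 1)) * η)).card : ℝ) ≤ (1 + 16 * m * (m + 1)) * e := by
  have hex : ∀ t : ℤ, ∃ a : E, 0 ≤ t → t < N →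
      ∑ x, w t x * (if 2 * η < ‖F t x - a‖ then 1 else 0) ≤ PD (w t) (F t) (2 * η) := by
    intro t
    by_cases ht : 0 ≤ t ∧ t < N
    · obtain ⟨a, ha⟩ := exists_typical (v := F t) (η := 2 * η) (h0 t) (h1 t ht.1 ht.2)
      exact ⟨a, fun _ _ => ha⟩
    · exact ⟨0, fun a b => absurd ⟨a, b⟩ ht⟩
  choose f hf using hex
  have hsr := sum_rho hm hN h0 h1 he
  obtain ⟨q, hq⟩ : ∃ q : ℤ → ℝ, q = fun t => ∑ x, w t x *
    (if 2 * η < ‖F t x - f t‖ then 1 else 0) := ⟨_, rfl⟩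
  have q0 : ∀ t, 0 ≤ q t := fun t => by
    rw [hq]
    exact Finset.sum_nonneg fun x _ => mul_nonneg (h0 _ _) (by split_ifs <;> norm_num)
  have hsq : (∑ t ∈ Finset.Ico (0 : ℤ) N, q t) * N ≤ 16 * m * e := by
    refine le_trans (mul_le_mul_of_nonneg_right (Finset.sum_le_sum fun t ht => ?_)
      (by positivity)) hsr
    rw [mem_Ico] at ht
    rw [hq]
    exact hf t ht.1 ht.2
  refine ⟨f, by rw [hq] at hsq; exact hsq, ?_⟩
  have G0 : ∀ p ∈ prs m N, 0 ≤ GP m w F η p.1 p.2 := fun p _ => PG_nonneg fun j x => h0 _ x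
  have hsub : bad m f N ((1 + 2 ^ (m + 1)) * η) ⊆ prs m N := by
    rintro ⟨t, h⟩ hp
    obtain ⟨a1, a2, a3, -⟩ := (mem_bad hm).1 hp
    exact (mem_prs hm).2 ⟨a1, a2, a3⟩
  have k1 : ∀ p ∈ bad m f N ((1 + 2 ^ (m + 1)) * η),
      (1 : ℝ) ≤ GP m w F η p.1 p.2 + ∑ j ∈ range (m + 1), q (p.1 + j * p.2) := by
    rintro ⟨t, h⟩ hp
    obtain ⟨t0, h1', tN, hb⟩ := (mem_bad hm).1 hp
    have := one_le_PG (c := fun j : Fin (m + 1) => cf m j)
      (u := fun j => w (t + (j : ℕ) * h)) (v := fun j => F (t + (j : ℕ) * h))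
      (η := η) (θ := 2 * η) (fun j x => h0 _ x) (fun j => h1 _ (by positivity) (by
        have : ((j : ℕ) : ℤ) ≤ m := by exact_mod_cast Nat.lt_succ_iff.1 j.2
        have := mul_le_mul_of_nonneg_right this (zero_le_one.trans h1')
        linarith)) (fun j => f (t + (j : ℕ) * h)) (by
        have e1 : ∑ j : Fin (m + 1), |cf m j| = 2 ^ m := by
          rw [Fin.sum_univ_eq_sum_range (fun j => |cf m j|) (m + 1)]
          exact sum_cf_abs m
        have e2 : ∑ j : Fin (m + 1), cf m j • f (t + (j : ℕ) * h) = ap m f t h := by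
          rw [Fin.sum_univ_eq_sum_range (fun j => cf m j • f (t + (j : ℕ) * h)) (m + 1)]
          rfl
        rw [e1, e2]
        have e3 : η + 2 ^ m * (2 * η) = (1 + 2 ^ (m + 1)) * η := by ring
        rw [e3]
        exact hb)
    rw [Fin.sum_univ_eq_sum_range (fun j => ∑ x, w (t + (j : ℕ) * h) x *
      (if 2 * η < ‖F (t + (j : ℕ) * h) x - f (t + (j : ℕ) * h)‖ then 1 else 0)) (m + 1)] at this
    rw [hq]
    exact this
  have k2 : ((bad m f N ((1 + 2 ^ (m + 1)) * η)).card : ℝ) ≤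
      ∑ p ∈ prs m N, (GP m w F η p.1 p.2 + ∑ j ∈ range (m + 1), q (p.1 + j * p.2)) := by
    rw [Finset.card_eq_sum_ones, Nat.cast_sum]
    simp only [Nat.cast_one]
    refine (Finset.sum_le_sum k1).trans (Finset.sum_le_sum_of_subset_of_nonneg hsub
      fun p hp _ => add_nonneg (G0 p hp) (Finset.sum_nonneg fun j _ => q0 _))
  have k3 : ∀ j ∈ range (m + 1), ∑ p ∈ prs m N, q (p.1 + j * p.2) ≤
      (∑ t ∈ Finset.Ico (0 : ℤ) N, q t) * N := by
    intro j hj
    have hj' : (j : ℤ) ≤ m := by exact_mod_cast Nat.lt_succ_iff.1 (mem_range.1 hj)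
    have a1 : ∑ p ∈ prs m N, q (p.1 + j * p.2) ≤
        ∑ p ∈ (Finset.Ico (0 : ℤ) N) ×ˢ (Finset.Ico (1 : ℤ) N), q p.1 := by
      refine sum_inj_le _ _ (fun p : ℤ × ℤ => (p.1 + j * p.2, p.2)) (fun p : ℤ × ℤ => q p.1)
        (fun p _ => q0 _) (fun p hp => ?_) fun p _ p' _ e => ?_
      · obtain ⟨t, h⟩ := p
        have hp' := hp
        obtain ⟨t0, h1', tN⟩ := (mem_prs hm).1 hp
        rw [prs, mem_filter, mem_product] at hp'
        rw [mem_product, mem_Ico]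
        refine ⟨⟨by positivity, ?_⟩, hp'.1.2⟩
        have := mul_le_mul_of_nonneg_right hj' (zero_le_one.trans h1')
        simp only
        linarith
      · simp only [Prod.mk.injEq] at e
        obtain ⟨e1, e2⟩ := e
        rw [e2] at e1
        exact Prod.ext (by linarith) e2
    refine a1.trans ?_
    rw [Finset.sum_product, Finset.sum_mul]
    refine Finset.sum_le_sum fun t _ => ?_
    simp only [Finset.sum_const, Int.card_Ico, nsmul_eq_mul]
    rw [mul_comm]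
    refine mul_le_mul_of_nonneg_left ?_ (q0 _)
    have : ((N : ℤ) - 1).toNat ≤ N := by omega
    exact_mod_cast this
  rw [Finset.sum_add_distrib, Finset.sum_comm] at k2
  have k4 := Finset.sum_le_sum k3
  rw [Finset.sum_const, card_range, nsmul_eq_mul] at k4
  push_cast at k4
  have k5 : ((m : ℝ) + 1) * ((∑ t ∈ Finset.Ico (0 : ℤ) N, q t) * N) ≤
      (m + 1) * (16 * m * e) := mul_le_mul_of_nonneg_left hsq (by positivity)
  calc ((bad m f N ((1 + 2 ^ (m + 1)) * η)).card : ℝ) ≤ e + (m + 1) * (16 * m * e) := by linarith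
    _ = (1 + 16 * m * (m + 1)) * e := by ring

end Pool.APP
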