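import Mathlib

/-!
# Alternating sums along progressions: self-correction

`ap m f t h` is the alternating binomial sum of `f : ℤ → E` along `t, t + h, .., t + m h`. If most
of these sums are at most `η`, there is a function `g` which is close to `f` at most points and has
all its sums at most `2 ^ (2 m + 2) η`.
-/

set_option autoImplicit false

namespace Pool.APP

open Finset

variable {E : Type*} [NormedAddCommGroup E] [NormedSpace ℝ E]

/-- The signed binomial coefficients. -/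
def cf (m j : ℕ) : ℝ := (-1 : ℝ) ^ j * (m.choose j : ℝ)

/-- The alternating binomial sum along a progression. -/
def ap (m : ℕ) (f : ℤ → E) (t h : ℤ) : E := ∑ j ∈ range (m + 1), cf m j • f (t + j * h)

theorem cf_zero (m : ℕ) : cf m 0 = 1 := by simp [cf]

theorem cf_abs (m j : ℕ) : |cf m j| = m.choose j := by simp [cf, abs_mul]

theorem cf_self (m : ℕ) : cf m m = (-1 : ℝ) ^ m := by simp [cf]

theorem sum_cf_abs (m : ℕ) : ∑ j ∈ range (m + 1), |cf m j| = 2 ^ m := by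
  simp only [cf_abs]
  exact_mod_cast Nat.sum_range_choose m

theorem sum_cf_abs' (m : ℕ) : ∑ j ∈ range m, |cf m (j + 1)| ≤ 2 ^ m := by
  have h := sum_cf_abs m
  rw [Finset.sum_range_succ'] at h
  have := abs_nonneg (cf m 0)
  linarith

/-- The value predicted by a progression. -/
def vt (m : ℕ) (f : ℤ → E) (t h : ℤ) : E := f t - ap m f t h

theorem vt_eq (m : ℕ) (f : ℤ → E) (t h : ℤ) :
    vt m f t h = -∑ j ∈ range m, cf m (j + 1) • f (t + (j + 1 : ℕ) * h) := by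
  rw [vt, ap, Finset.sum_range_succ', cf_zero]
  simp

/-- The square array. -/
theorem ap_comm (m : ℕ) (f : ℤ → E) (t h h' : ℤ) :
    ∑ i ∈ range (m + 1), cf m i • ap m f (t + i * h) h' =
      ∑ i ∈ range (m + 1), cf m i • ap m f (t + i * h') h := by
  simp only [ap, Finset.smul_sum]
  rw [Finset.sum_comm]
  refine Finset.sum_congr rfl fun i _ => Finset.sum_congr rfl fun j _ => ?_
  rw [smul_smul, smul_smul, mul_comm (cf m j)]
  congr 2
  ring

theorem norm_sum_cf_le {m : ℕ} {v : ℕ → E} {η : ℝ} (hη : 0 ≤ η)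
    (h : ∀ i ∈ range m, ‖v i‖ ≤ η) : ‖∑ i ∈ range m, cf m (i + 1) • v i‖ ≤ 2 ^ m * η := by
  calc ‖∑ i ∈ range m, cf m (i + 1) • v i‖ ≤ ∑ i ∈ range m, |cf m (i + 1)| * η := by
        refine (norm_sum_le _ _).trans (Finset.sum_le_sum fun i hi => ?_)
        rw [norm_smul, Real.norm_eq_abs]
        exact mul_le_mul_of_nonneg_left (h i hi) (abs_nonneg _)
    _ = (∑ i ∈ range m, |cf m (i + 1)|) * η := by rw [Finset.sum_mul]
    _ ≤ 2 ^ m * η := mul_le_mul_of_nonneg_right (sum_cf_abs' m) hη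

theorem norm_sum_cf_le' {m : ℕ} {v : ℕ → E} {η : ℝ}
    (h : ∀ i ∈ range (m + 1), ‖v i‖ ≤ η) :
    ‖∑ i ∈ range (m + 1), cf m i • v i‖ ≤ 2 ^ m * η := by
  calc ‖∑ i ∈ range (m + 1), cf m i • v i‖ ≤ ∑ i ∈ range (m + 1), |cf m i| * η := by
        refine (norm_sum_le _ _).trans (Finset.sum_le_sum fun i hi => ?_)
        rw [norm_smul, Real.norm_eq_abs]
        exact mul_le_mul_of_nonneg_left (h i hi) (abs_nonneg _)
    _ = 2 ^ m * η := by rw [← Finset.sum_mul, sum_cf_abs]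

/-- Two predictions at the same point agree, if the array is good. -/
theorem vt_close {m : ℕ} {f : ℤ → E} {η : ℝ} (hη : 0 ≤ η) {t h h' : ℤ}
    (h1 : ∀ i ∈ range m, ‖ap m f (t + (i + 1 : ℕ) * h) h'‖ ≤ η)
    (h2 : ∀ i ∈ range m, ‖ap m f (t + (i + 1 : ℕ) * h') h‖ ≤ η) :
    ‖vt m f t h - vt m f t h'‖ ≤ 2 ^ (m + 1) * η := by
  have e := ap_comm m f t h h'
  rw [Finset.sum_range_succ', Finset.sum_range_succ' _ m, cf_zero] at e
  simp only [Nat.cast_zero, zero_mul, add_zero, one_smul] at e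
  have e2 : vt m f t h - vt m f t h' =
      ∑ i ∈ range m, cf m (i + 1) • ap m f (t + (i + 1 : ℕ) * h') h -
        ∑ i ∈ range m, cf m (i + 1) • ap m f (t + (i + 1 : ℕ) * h) h' := by
    rw [vt, vt]
    have : ap m f t h' - ap m f t h =
        ∑ i ∈ range m, cf m (i + 1) • ap m f (t + (i + 1 : ℕ) * h') h -
        ∑ i ∈ range m, cf m (i + 1) • ap m f (t + (i + 1 : ℕ) * h) h' := by
      rw [sub_eq_sub_iff_add_eq_add, add_comm, e]
    rw [← this]
    abel
  rw [e2]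
  refine (norm_sub_le _ _).trans ?_
  have := norm_sum_cf_le hη h1
  have := norm_sum_cf_le hη h2
  rw [pow_succ]
  linarith

/-- The predictions along a progression with varying steps. -/
theorem sum_vt (m : ℕ) (f : ℤ → E) (t τ k l : ℤ) :
    ∑ i ∈ range (m + 1), cf m i • vt m f (t + i * τ) (k + i * l) =
      -∑ j ∈ range m, cf m (j + 1) • ap m f (t + (j + 1 : ℕ) * k) (τ + (j + 1 : ℕ) * l) := by
  simp only [vt_eq, ap, smul_neg, Finset.sum_neg_distrib, Finset.smul_sum]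
  rw [Finset.sum_comm]
  congr 1
  refine Finset.sum_congr rfl fun j _ => Finset.sum_congr rfl fun i _ => ?_
  rw [smul_smul, smul_smul, mul_comm (cf m i)]
  congr 2
  push_cast
  ring

/-- The bad pairs. -/
noncomputable def bad (m : ℕ) (f : ℤ → E) (N : ℕ) (η : ℝ) : Finset (ℤ × ℤ) := by
  classical
  exact ((Finset.Ico (0 : ℤ) N) ×ˢ (Finset.Ico (1 : ℤ) N)).filter
    (fun p => p.1 + m * p.2 < N ∧ η < ‖ap m f p.1 p.2‖)

theorem mem_bad {m : ℕ} {f : ℤ → E} {N : ℕ} {η : ℝ} (hm : 1 ≤ m) {t h : ℤ} :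
    (t, h) ∈ bad m f N η ↔ 0 ≤ t ∧ 1 ≤ h ∧ t + m * h < N ∧ η < ‖ap m f t h‖ := by
  classical
  unfold bad
  simp only [mem_filter, mem_product, mem_Ico]
  constructor
  · rintro ⟨⟨⟨h1, -⟩, h2, -⟩, h3, h4⟩
    exact ⟨h1, h2, h3, h4⟩
  · rintro ⟨h1, h2, h3, h4⟩
    have hm' : (1 : ℤ) ≤ m := by exact_mod_cast hm
    have : h ≤ m * h := by nlinarith
    exact ⟨⟨⟨h1, by linarith⟩, h2, by linarith⟩, h3, h4⟩

/-- Good pairs. -/
theorem good_of_not_mem {m : ℕ} {f : ℤ → E} {N : ℕ} {η : ℝ} (hm : 1 ≤ m) {t h : ℤ}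
    (h0 : 0 ≤ t) (h1 : 1 ≤ h) (h2 : t + m * h < N) (hb : (t, h) ∉ bad m f N η) :
    ‖ap m f t h‖ ≤ η := by
  by_contra hc
  exact hb ((mem_bad hm).2 ⟨h0, h1, h2, not_le.1 hc⟩)

/-- Counting by an injection into the bad pairs. -/
theorem card_le_bad {α : Type*} {s : Finset α} {B : Finset (ℤ × ℤ)} (φ : α → ℤ × ℤ)
    (h1 : ∀ a ∈ s, φ a ∈ B) (h2 : ∀ a ∈ s, ∀ b ∈ s, φ a = φ b → a = b) : s.card ≤ B.card :=
  Finset.card_le_card_of_injOn φ h1 fun a ha b hb => h2 a ha b hb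

end Pool.APP
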