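import Pool.Agent.H16.APP.Rs

/-!
# Self-correction
-/

set_option autoImplicit false

namespace Pool.APP

open Finset

variable {E : Type*} [NormedAddCommGroup E] [NormedSpace ℝ E]

open Classical in
/-- The steps whose prediction is far from `v`. -/
noncomputable def far (m : ℕ) (f : ℤ → E) (η : ℝ) (H : ℕ) (t : ℤ) (v : E) : Finset ℤ :=
  (Finset.Icc (1 : ℤ) H).filter (fun h => 2 ^ (m + 1) * η < ‖vt m f t h - v‖)

open Classical in
/-- The vote. -/
theorem exists_vote {m : ℕ} (hm : 1 ≤ m) {f : ℤ → E} {N : ℕ} {η : ℝ} (hη : 0 ≤ η) {H : ℕ}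
    (hH : 1 ≤ H) {t : ℤ} (h0 : 0 ≤ t) (h1 : t + 2 * m * H < N) :
    ∃ h₀ : ℤ, (far m f η H t (vt m f t h₀)).card * H ≤ 2 * m * (bad m f N η).card := by
  set I := Finset.Icc (1 : ℤ) H with hI
  have cI : I.card = H := by simp [hI]
  set b := (bad m f N η).card with hb
  set P := I ×ˢ I with hP
  set Q := P.filter (fun p => 2 ^ (m + 1) * η < ‖vt m f t p.2 - vt m f t p.1‖) with hQ
  have hm' : (1 : ℤ) ≤ m := by exact_mod_cast hm
  -- the pairs which do not agree are few
  have cQ : Q.card ≤ 2 * m * b := by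
    have sub : Q ⊆ ((range m).biUnion fun i => P.filter
        (fun p => (t + (i + 1 : ℕ) * p.2, p.1) ∈ bad m f N η)) ∪
        ((range m).biUnion fun i => P.filter
        (fun p => (t + (i + 1 : ℕ) * p.1, p.2) ∈ bad m f N η)) := by
      intro p hp
      by_contra hc
      rw [mem_union, not_or, mem_biUnion, mem_biUnion] at hc
      obtain ⟨c1, c2⟩ := hc
      push Not at c1 c2
      rw [hQ, mem_filter] at hp
      obtain ⟨hp1, hp2⟩ := hp
      have hp1' := hp1
      rw [hP, mem_product, hI, mem_Icc, mem_Icc] at hp1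
      obtain ⟨⟨a1, a2⟩, a3, a4⟩ := hp1
      refine absurd (vt_close hη (fun i hi => ?_) (fun i hi => ?_)) (not_le.2 hp2)
      · have := c1 i hi
        rw [mem_filter, not_and] at this
        have hi' : ((i + 1 : ℕ) : ℤ) ≤ m := by exact_mod_cast Nat.succ_le_of_lt (mem_range.1 hi)
        have hi0 : (0 : ℤ) ≤ ((i + 1 : ℕ) : ℤ) := by positivity
        refine good_of_not_mem hm (by nlinarith) a1 ?_ (this hp1')
        have e1 : ((i + 1 : ℕ) : ℤ) * p.2 ≤ m * H := by
          exact mul_le_mul hi' a4 (by linarith) (by linarith)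
        have e2 : (m : ℤ) * p.1 ≤ m * H := by nlinarith
        linarith
      · have := c2 i hi
        rw [mem_filter, not_and] at this
        have hi' : ((i + 1 : ℕ) : ℤ) ≤ m := by exact_mod_cast Nat.succ_le_of_lt (mem_range.1 hi)
        have hi0 : (0 : ℤ) ≤ ((i + 1 : ℕ) : ℤ) := by positivity
        refine good_of_not_mem hm (by nlinarith) a3 ?_ (this hp1')
        have e1 : ((i + 1 : ℕ) : ℤ) * p.1 ≤ m * H := by
          exact mul_le_mul hi' a2 (by linarith) (by linarith)
        have e2 : (m : ℤ) * p.2 ≤ m * H := by nlinarith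
        linarith
    refine (card_le_card sub).trans ((card_union_le _ _).trans ?_)
    have k1 : ∀ i ∈ range m, (P.filter
        (fun p => (t + (i + 1 : ℕ) * p.2, p.1) ∈ bad m f N η)).card ≤ b := by
      intro i _
      refine card_le_bad (fun p => (t + (i + 1 : ℕ) * p.2, p.1)) (fun p hp => (mem_filter.1 hp).2)
        fun p _ q _ e => ?_
      simp only [Prod.mk.injEq, add_right_inj] at e
      have hi0 : ((i + 1 : ℕ) : ℤ) ≠ 0 := by positivity
      exact Prod.ext e.2 (mul_left_cancel₀ hi0 e.1)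
    have k2 : ∀ i ∈ range m, (P.filter
        (fun p => (t + (i + 1 : ℕ) * p.1, p.2) ∈ bad m f N η)).card ≤ b := by
      intro i _
      refine card_le_bad (fun p => (t + (i + 1 : ℕ) * p.1, p.2)) (fun p hp => (mem_filter.1 hp).2)
        fun p _ q _ e => ?_
      simp only [Prod.mk.injEq, add_right_inj] at e
      have hi0 : ((i + 1 : ℕ) : ℤ) ≠ 0 := by positivity
      exact Prod.ext (mul_left_cancel₀ hi0 e.1) e.2
    have l1 := (card_biUnion_le).trans (Finset.sum_le_sum k1)
    have l2 := (card_biUnion_le).trans (Finset.sum_le_sum k2)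
    rw [Finset.sum_const, card_range, smul_eq_mul] at l1 l2
    linarith
  -- pigeonhole
  have hsum : ∑ h₀ ∈ I, (far m f η H t (vt m f t h₀)).card = Q.card := by
    rw [hQ, hP, Finset.card_filter, Finset.sum_product]
    refine Finset.sum_congr rfl fun h _ => ?_
    rw [far, Finset.card_filter]
  have hne : I.Nonempty := by rw [← card_pos, cI]; omega
  obtain ⟨h₀, -, h⟩ := Finset.exists_le_of_sum_le (s := I)
    (f := fun h₀ => (far m f η H t (vt m f t h₀)).card * H) (g := fun _ => 2 * m * b) hne (by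
      rw [← Finset.sum_mul, hsum, Finset.sum_const, cI, smul_eq_mul, mul_comm]
      exact Nat.mul_le_mul_left _ cQ)
  exact ⟨h₀, h⟩

end Pool.APP
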