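import Pool.Agent.H16.APP.Sc

/-!
# Self-correction, second part
-/

set_option autoImplicit false

namespace Pool.APP

open Finset

variable {E : Type*} [NormedAddCommGroup E] [NormedSpace ℝ E]

open Classical in
/-- All sums of the corrected function are small. -/
theorem sc_all {m : ℕ} (hm : 1 ≤ m) {f g : ℤ → E} {N K M : ℕ} {η : ℝ} (hη : 0 ≤ η)
    (hM : 1 ≤ M) (hNz : (K : ℤ) * M + 2 * m * ((m + 1) * M) < N)
    (hb : 3 * m * (bad m f N η).card < M ^ 2)
    (hv : ∀ t : ℤ, 0 ≤ t → t ≤ K * M →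
      (far m f η ((m + 1) * M) t (g t)).card * ((m + 1) * M) ≤ 2 * m * (bad m f N η).card)
    {t τ : ℤ} (t0 : 0 ≤ t) (τ1 : 1 ≤ τ) (tK : t + m * τ ≤ K * M) :
    ‖ap m g t τ‖ ≤ 2 ^ (2 * m + 2) * η := by
  have hm' : (1 : ℤ) ≤ m := by exact_mod_cast hm
  have hM' : (1 : ℤ) ≤ M := by exact_mod_cast hM
  obtain ⟨b, hbb⟩ : ∃ b, b = (bad m f N η).card := ⟨_, rfl⟩
  rw [← hbb] at hb hv
  obtain ⟨I, hI⟩ : ∃ I, I = Finset.Icc (1 : ℤ) M := ⟨_, rfl⟩
  have cI : I.card = M := by simp [hI]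
  obtain ⟨P, hP⟩ : ∃ P, P = I ×ˢ I := ⟨_, rfl⟩
  obtain ⟨A, hA⟩ : ∃ A : ℕ → Finset (ℤ × ℤ), A = fun i : ℕ => P.filter
    (fun p : ℤ × ℤ => p.1 + (i : ℤ) * p.2 ∈
      far m f η ((m + 1) * M) (t + (i : ℤ) * τ) (g (t + (i : ℤ) * τ))) := ⟨_, rfl⟩
  obtain ⟨B, hB⟩ : ∃ B : ℕ → Finset (ℤ × ℤ), B = fun j : ℕ => P.filter
    (fun p : ℤ × ℤ => (t + (j + 1 : ℕ) * p.1, τ + (j + 1 : ℕ) * p.2) ∈ bad m f N η) := ⟨_, rfl⟩
  have cA : ∀ i ∈ range (m + 1), (A i).card * (m + 1) ≤ 2 * m * b := by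
    intro i hi
    have hi' : (i : ℤ) ≤ m := by exact_mod_cast Nat.lt_succ_iff.1 (mem_range.1 hi)
    have i0 : (0 : ℤ) ≤ i := by positivity
    have e1 : t + i * τ ≤ K * M :=
      le_trans (by linarith [mul_le_mul_of_nonneg_right hi' (zero_le_one.trans τ1)]) tK
    have e0 : 0 ≤ t + i * τ := add_nonneg t0 (mul_nonneg i0 (zero_le_one.trans τ1))
    have h1 := hv _ e0 e1
    have h2 : (A i).card ≤
        (far m f η ((m + 1) * M) (t + i * τ) (g (t + i * τ))).card * M := by
      calc (A i).card ≤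
          ((far m f η ((m + 1) * M) (t + i * τ) (g (t + i * τ))) ×ˢ I).card := by
            refine Finset.card_le_card_of_injOn (fun p => (p.1 + i * p.2, p.2)) ?_ ?_
            · intro p hp
              rw [mem_coe, hA, mem_filter, hP, mem_product] at hp
              rw [mem_coe, mem_product]
              exact ⟨hp.2, hp.1.2⟩
            · intro p _ q _ e
              simp only [Prod.mk.injEq] at e
              obtain ⟨e1, e2⟩ := e
              rw [e2] at e1
              exact Prod.ext (by linarith) e2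
        _ = _ := by rw [card_product, cI]
    calc (A i).card * (m + 1) ≤
        (far m f η ((m + 1) * M) (t + i * τ) (g (t + i * τ))).card * M * (m + 1) :=
          Nat.mul_le_mul_right _ h2
      _ = (far m f η ((m + 1) * M) (t + i * τ) (g (t + i * τ))).card * ((m + 1) * M) := by ring
      _ ≤ 2 * m * b := h1
  have cB : ∀ j ∈ range m, (B j).card ≤ b := by
    intro j _
    rw [hbb]
    refine card_le_bad (fun p => (t + (j + 1 : ℕ) * p.1, τ + (j + 1 : ℕ) * p.2))
      (fun p hp => ?_) fun p _ q _ e => ?_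
    · rw [hB, mem_filter] at hp
      exact hp.2
    · simp only [Prod.mk.injEq, add_right_inj] at e
      have hj0 : ((j + 1 : ℕ) : ℤ) ≠ 0 := by positivity
      exact Prod.ext (mul_left_cancel₀ hj0 e.1) (mul_left_cancel₀ hj0 e.2)
  have sA : ∑ i ∈ range (m + 1), (A i).card ≤ 2 * m * b := by
    have := Finset.sum_le_sum cA
    rw [← Finset.sum_mul, Finset.sum_const, card_range, smul_eq_mul, mul_comm (m + 1)] at this
    exact Nat.le_of_mul_le_mul_right this (Nat.succ_pos m)
  have sB : ∑ j ∈ range m, (B j).card ≤ m * b := by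
    have := Finset.sum_le_sum cB
    rwa [Finset.sum_const, card_range, smul_eq_mul] at this
  have hex : ∃ p ∈ P, (∀ i ∈ range (m + 1), p ∉ A i) ∧ ∀ j ∈ range m, p ∉ B j := by
    by_contra hc
    push Not at hc
    have sub : P ⊆ ((range (m + 1)).biUnion A) ∪ (range m).biUnion B := by
      intro p hp
      rw [mem_union, mem_biUnion, mem_biUnion]
      by_cases h : ∀ i ∈ range (m + 1), p ∉ A i
      · right
        exact hc p hp h
      · left
        push Not at h
        exact h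
    have c1 := (card_le_card sub).trans (card_union_le _ _)
    have c2 := (card_biUnion_le (s := range (m + 1)) (t := A)).trans sA
    have c3 := (card_biUnion_le (s := range m) (t := B)).trans sB
    rw [hP, card_product, cI] at c1
    have c4 : M ^ 2 = M * M := sq M
    have c5 : 2 * m * b + m * b = 3 * m * b := by ring
    omega
  obtain ⟨⟨k, l⟩, hp, hpA, hpB⟩ := hex
  have hp' := hp
  rw [hP, mem_product, hI, mem_Icc, mem_Icc] at hp
  obtain ⟨⟨k1, kM⟩, l1, lM⟩ := hp
  simp only at k1 kM l1 lM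
  have g1 : ∀ i ∈ range (m + 1), ‖g (t + i * τ) - vt m f (t + i * τ) (k + i * l)‖ ≤
      2 ^ (m + 1) * η := by
    intro i hi
    have hi' : (i : ℤ) ≤ m := by exact_mod_cast Nat.lt_succ_iff.1 (mem_range.1 hi)
    have i0 : (0 : ℤ) ≤ i := by positivity
    have := hpA i hi
    rw [hA, mem_filter, not_and] at this
    have := this hp'
    rw [far, mem_filter, not_and, mem_Icc] at this
    have e1 : (i : ℤ) * l ≤ m * M := mul_le_mul hi' lM (by linarith) (by linarith)
    have e2 : (0 : ℤ) ≤ i * l := mul_nonneg i0 (by linarith)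
    have h3 : 1 ≤ k + i * l ∧ k + i * l ≤ (((m + 1) * M : ℕ) : ℤ) := by
      push_cast
      constructor
      · linarith
      · linarith
    rw [norm_sub_rev]
    exact not_lt.1 (this h3)
  have g2 : ∀ j ∈ range m, ‖ap m f (t + (j + 1 : ℕ) * k) (τ + (j + 1 : ℕ) * l)‖ ≤ η := by
    intro j hj
    have hj' : ((j + 1 : ℕ) : ℤ) ≤ m := by exact_mod_cast Nat.succ_le_of_lt (mem_range.1 hj)
    have j0 : (0 : ℤ) ≤ ((j + 1 : ℕ) : ℤ) := by positivity
    have := hpB j hj
    rw [hB, mem_filter, not_and] at this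
    have e1 : ((j + 1 : ℕ) : ℤ) * k ≤ m * M := mul_le_mul hj' kM (by linarith) (by linarith)
    have e2 : ((j + 1 : ℕ) : ℤ) * l ≤ m * M := mul_le_mul hj' lM (by linarith) (by linarith)
    have e7 : 0 ≤ ((j + 1 : ℕ) : ℤ) * k := mul_nonneg j0 (by linarith)
    have e8 : 0 ≤ ((j + 1 : ℕ) : ℤ) * l := mul_nonneg j0 (by linarith)
    refine good_of_not_mem hm (by linarith) (by linarith) ?_ (this hp')
    have e3 : (m : ℤ) * (τ + ((j + 1 : ℕ) : ℤ) * l) ≤ m * τ + m * (m * M) := by
      have := mul_le_mul_of_nonneg_left e2 (by linarith : (0 : ℤ) ≤ m)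
      linarith
    have e4 : (0 : ℤ) ≤ m * (m * M) := by positivity
    have e5 : (0 : ℤ) ≤ m * M := by positivity
    have e6 : (2 : ℤ) * m * ((m + 1) * M) = 2 * (m * (m * M)) + 2 * (m * M) := by ring
    rw [e6] at hNz
    linarith
  have e : ap m g t τ = ∑ i ∈ range (m + 1),
      cf m i • (g (t + i * τ) - vt m f (t + i * τ) (k + i * l)) +
        ∑ i ∈ range (m + 1), cf m i • vt m f (t + i * τ) (k + i * l) := by
    rw [← Finset.sum_add_distrib, ap]
    refine Finset.sum_congr rfl fun i _ => ?_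
    rw [← smul_add, sub_add_cancel]
  rw [e, sum_vt]
  have n1 := norm_sum_cf_le' (m := m) g1
  have n2 := norm_sum_cf_le hη g2
  refine (norm_add_le _ _).trans ?_
  rw [norm_neg]
  have e3 : (2 : ℝ) ^ (2 * m + 2) * η = 2 ^ m * (2 ^ (m + 1) * η) + 2 ^ m * (2 ^ (m + 1) * η) := by
    ring
  rw [e3]
  have : (2 : ℝ) ^ m * η ≤ 2 ^ m * (2 ^ (m + 1) * η) := by
    refine mul_le_mul_of_nonneg_left ?_ (by positivity)
    have : (1 : ℝ) ≤ 2 ^ (m + 1) := one_le_pow₀ (by norm_num)
    nlinarith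
  linarith

open Classical in
/-- The corrected function is close to the old one at most points. -/
theorem sc_close {m : ℕ} (hm : 1 ≤ m) {f g : ℤ → E} {N K H : ℕ} {M : ℕ} {η : ℝ}
    (hH1 : 1 ≤ H) (hNz : (K : ℤ) * M + m * H < N)
    (hb : 4 * m * (bad m f N η).card ≤ H ^ 2)
    (hv : ∀ t : ℤ, 0 ≤ t → t ≤ K * M →
      (far m f η H t (g t)).card * H ≤ 2 * m * (bad m f N η).card) :
    ((Finset.Icc (0 : ℤ) (K * M)).filter
      (fun t => (2 ^ (m + 1) + 1) * η < ‖f t - g t‖)).card * H ≤ 2 * (bad m f N η).card := by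
  have hm' : (1 : ℤ) ≤ m := by exact_mod_cast hm
  obtain ⟨b, hbb⟩ : ∃ b, b = (bad m f N η).card := ⟨_, rfl⟩
  rw [← hbb] at hb hv ⊢
  obtain ⟨X, hX⟩ : ∃ X, X = (Finset.Icc (0 : ℤ) (K * M)).filter
      (fun t => (2 ^ (m + 1) + 1) * η < ‖f t - g t‖) := ⟨_, rfl⟩
  obtain ⟨I, hI⟩ : ∃ I, I = Finset.Icc (1 : ℤ) H := ⟨_, rfl⟩
  have cI : I.card = H := by simp [hI]
  rw [← hX]
  have h1 : ∀ t ∈ X, H ≤ (I.filter (fun h => (t, h) ∈ bad m f N η)).card +
      (far m f η H t (g t)).card := by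
    intro t ht
    rw [hX, mem_filter, mem_Icc] at ht
    obtain ⟨⟨t0, tK⟩, ht⟩ := ht
    have hs : I ⊆ (I.filter (fun h => (t, h) ∈ bad m f N η)) ∪ far m f η H t (g t) := by
      intro h hh
      rw [mem_union, mem_filter, far, mem_filter, ← hI]
      by_contra hc
      rw [not_or, not_and, not_and] at hc
      obtain ⟨c1, c2⟩ := hc
      have hh' := hh
      rw [hI, mem_Icc] at hh'
      have e1 : (m : ℤ) * h ≤ m * H := mul_le_mul_of_nonneg_left hh'.2 (by linarith)
      have g1 := good_of_not_mem hm t0 hh'.1 (by linarith) (c1 hh)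
      have g2 := not_lt.1 (c2 hh)
      have : f t - g t = ap m f t h + (vt m f t h - g t) := by rw [vt]; abel
      rw [this] at ht
      have := norm_add_le (ap m f t h) (vt m f t h - g t)
      linarith
    calc H = I.card := cI.symm
      _ ≤ _ := (card_le_card hs).trans (card_union_le _ _)
  have h2 : ∑ t ∈ X, (I.filter (fun h => (t, h) ∈ bad m f N η)).card ≤ b := by
    have : ∑ t ∈ X, (I.filter (fun h => (t, h) ∈ bad m f N η)).card =
        ((X ×ˢ I).filter (fun p => p ∈ bad m f N η)).card := by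
      rw [Finset.card_filter, Finset.sum_product]
      refine Finset.sum_congr rfl fun t _ => ?_
      rw [Finset.card_filter]
    rw [this, hbb]
    exact card_le_card fun p hp => (mem_filter.1 hp).2
  have h3 : X.card * H ≤ b + ∑ t ∈ X, (far m f η H t (g t)).card := by
    have := Finset.sum_le_sum h1
    rw [Finset.sum_const, smul_eq_mul, Finset.sum_add_distrib] at this
    omega
  have h4 : (∑ t ∈ X, (far m f η H t (g t)).card) * H ≤ X.card * (2 * m * b) := by
    rw [Finset.sum_mul, ← smul_eq_mul (a := X.card), ← Finset.sum_const]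
    refine Finset.sum_le_sum fun t ht => ?_
    rw [hX, mem_filter, mem_Icc] at ht
    exact hv t ht.1.1 ht.1.2
  have h6 : X.card * H * H ≤ b * H + X.card * (2 * m * b) := by
    calc X.card * H * H ≤ (b + ∑ t ∈ X, (far m f η H t (g t)).card) * H :=
          Nat.mul_le_mul_right _ h3
      _ = b * H + (∑ t ∈ X, (far m f η H t (g t)).card) * H := by ring
      _ ≤ _ := Nat.add_le_add_left h4 _
  have h7 : X.card * (4 * m * b) ≤ X.card * H ^ 2 := Nat.mul_le_mul_left _ hb
  have h9 : X.card * H ^ 2 = X.card * H * H := by ring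
  have h10 : X.card * (4 * m * b) = 2 * (X.card * (2 * m * b)) := by ring
  have h8 : X.card * H * H ≤ 2 * b * H := by
    have : 2 * b * H = 2 * (b * H) := by ring
    omega
  exact Nat.le_of_mul_le_mul_right h8 hH1

open Classical in
/-- **Self-correction.** -/
theorem self_correct {m : ℕ} (hm : 1 ≤ m) {f : ℤ → E} {N K M : ℕ} {η : ℝ} (hη : 0 ≤ η)
    (hM : 1 ≤ M) (hN : (K + 2 * m * (m + 1)) * M < N)
    (hb : 3 * m * (bad m f N η).card < M ^ 2) :
    ∃ g : ℤ → E, (∀ t τ : ℤ, 0 ≤ t → 1 ≤ τ → t + m * τ ≤ K * M →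
        ‖ap m g t τ‖ ≤ 2 ^ (2 * m + 2) * η) ∧
      ((Finset.Icc (0 : ℤ) (K * M)).filter
        (fun t => (2 ^ (m + 1) + 1) * η < ‖f t - g t‖)).card * ((m + 1) * M) ≤
          2 * (bad m f N η).card := by
  have hH1 : 1 ≤ (m + 1) * M := Nat.one_le_iff_ne_zero.2 (by positivity)
  have hNz : (K : ℤ) * M + 2 * m * ((m + 1) * M) < N := by
    have : (((K + 2 * m * (m + 1)) * M : ℕ) : ℤ) < N := by exact_mod_cast hN
    push_cast at this
    linarith
  have vote : ∀ t : ℤ, ∃ h₀ : ℤ, 0 ≤ t → t ≤ K * M →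
      (far m f η ((m + 1) * M) t (vt m f t h₀)).card * ((m + 1) * M) ≤
        2 * m * (bad m f N η).card := by
    intro t
    by_cases ht : 0 ≤ t ∧ t ≤ K * M
    · obtain ⟨h₀, h⟩ := exists_vote (N := N) hm (f := f) hη hH1 ht.1
        (by push_cast; linarith [ht.2])
      exact ⟨h₀, fun _ _ => h⟩
    · exact ⟨0, fun h1 h2 => absurd ⟨h1, h2⟩ ht⟩
  choose h₀ hv using vote
  refine ⟨fun t => vt m f t (h₀ t), fun t τ t0 τ1 tK => sc_all hm hη hM hNz hb hv t0 τ1 tK, ?_⟩
  refine sc_close hm hH1 ?_ ?_ hv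
  · push_cast
    have e5 : (0 : ℤ) ≤ m * ((m + 1) * M) := by positivity
    linarith
  · have h1 : M ^ 2 * 4 ≤ ((m + 1) * M) ^ 2 := by
      rw [mul_pow, mul_comm]
      exact Nat.mul_le_mul_right _ (by nlinarith)
    have h2 : 4 * m * (bad m f N η).card ≤ 2 * (3 * m * (bad m f N η).card) := by
      have : 2 * (3 * m * (bad m f N η).card) = 4 * m * (bad m f N η).card +
        2 * m * (bad m f N η).card := by ring
      omega
    omega

end Pool.APP
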